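import Pool.Agent.SGK.Stmts
import Pool.Agent.Helper29_SGE.Uni

/-!
# Squad SGK, row FIN: the final theorem
-/

set_option autoImplicit false

noncomputable section

namespace Pool.Agent.SGK.H21

open Pool.Agent.SGE Pool.Agent.SGE.H29

theorem nc_core (hncx : NcxStmt) {n : ℕ} {G : SimpleGraph (Fin n)} {V : Type} {a b : V}
    {C : List V} {S : List (V × List V)} (hcan : Can a b C S) (e : Fin n → V)
    (hadj : ∀ u w, G.Adj u w → (∃ ℓ, (e u, ℓ) ∈ S ∧ e w ∈ ℓ) ∨ ∃ ℓ, (e w, ℓ) ∈ S ∧ e u ∈ ℓ)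
    {x y : V → ℝ} (hO : Pool.Agent.SGE.Ord a b S x y) :
    NC G (fun v => x (e v)) (fun v => y (e v)) := by
  have key : ∀ u w, G.Adj u w → y (e u) < y (e w) → ∃ ℓ, (e w, ℓ) ∈ S ∧ e u ∈ ℓ := by
    intro u w huw hlt
    rcases hadj u w huw with ⟨ℓ, hs, h2⟩ | ⟨ℓ, hs, h2⟩
    · exact absurd (hO.up _ _ _ hs h2) (lt_asymm hlt)
    · exact ⟨ℓ, hs, h2⟩
  intro a₁ b₁ a₂ b₂ h1 h2 h3 h4 h5
  obtain ⟨ℓ₁, h6, h7⟩ := key a₁ b₁ h1 h3
  obtain ⟨ℓ₂, h8, h9⟩ := key a₂ b₂ h2 (lt_trans h4 h5)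
  exact hncx hcan hO _ ℓ₁ _ _ ℓ₂ _ h6 h7 h8 h9 h5 h4

/-- Extension of a relation with prescribed order on the chosen vertices. -/
theorem lex_ev (hlex : LexStmt) {n k : ℕ} (R : W n → W n → Prop)
    (htr : ∀ u v w, R u v → R v w → R u w) (hir : ∀ u, ¬ R u u) (A : Finset (Fin n))
    (φ : {u // u ∈ A} ≃ Fin k) (f₂ : Fin k → ℝ) (hf₂ : Function.Injective f₂)
    (hR : ∀ u w : {u // u ∈ A}, R (ev u.1) (ev w.1) → f₂ (φ u) < f₂ (φ w)) :
    ∃ x : W n → ℕ, Function.Injective x ∧ (∀ v, x v < Fintype.card (W n)) ∧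
      (∀ u w, R u w → x u < x w) ∧
      ∀ i j : Fin k, x (ev (φ.symm i).1) < x (ev (φ.symm j).1) ↔ f₂ i < f₂ j := by
  classical
  have hev : ∀ u w : Fin n, (ev u : W n) = ev w → u = w := by
    intro u w h
    exact Sum.inl_injective (Option.some_injective _ h)
  let f : W n → ℝ := fun z =>
    if h : ∃ u : {u // u ∈ A}, z = ev u.1 then f₂ (φ h.choose) else 0
  have hf : ∀ u : {u // u ∈ A}, f (ev u.1) = f₂ (φ u) := by
    intro u
    have h : ∃ u' : {u // u ∈ A}, (ev u.1 : W n) = ev u'.1 := ⟨u, rfl⟩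
    have h1 : h.choose = u := by
      apply Subtype.ext
      exact (hev _ _ h.choose_spec).symm
    simp only [f]
    rw [dif_pos h, h1]
  obtain ⟨x, hx1, hx2, hx3, hx4⟩ := hlex R htr hir {z | ∃ u : {u // u ∈ A}, z = ev u.1} f
    (by
      rintro _ ⟨u, rfl⟩ _ ⟨w, rfl⟩ h
      rw [hf, hf] at h
      rw [φ.injective (hf₂ h)])
    (by
      rintro _ ⟨u, rfl⟩ _ ⟨w, rfl⟩ h
      rw [hf, hf]
      exact hR u w h)
  refine ⟨x, hx1, hx2, hx3, fun i j => ?_⟩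
  rw [hx4 _ ⟨φ.symm i, rfl⟩ _ ⟨φ.symm j, rfl⟩, hf, hf, φ.apply_symm_apply, φ.apply_symm_apply]

theorem fin (hgeo : GeoStmt) (hint : IntStmt) (hncx : NcxStmt) (hexp : ExpStmt)
    (hsel : SelStmt) (hkir : KirStmt) (hzon : ZonStmt) (hcjo : CjoStmt) (hlex : LexStmt) :
    FinStmt := by
  intro n k hkn h6 G₁ G₂ hG₁ hG₂
  classical
  obtain ⟨a, b, C, S, hcan, hall, hadj, A, hA, hAg⟩ := hsel hkn h6 G₁ hG₁
  obtain ⟨hix, hiy⟩ := hkir hcan
  obtain ⟨S₂, hS₂, hall₂, hadj₂⟩ := hgeo G₂ hG₂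
  have hcan₂ := hS₂.can
  obtain ⟨X₂, Y₂, hO₂, hd₂, -⟩ := hint hcan₂
  have hev : ∀ u w : Fin n, (ev u : W n) = ev w → u = w := by
    intro u w h
    exact Sum.inl_injective (Option.some_injective _ h)
  have hx₂ : Function.Injective fun v : Fin k => X₂ (Sum.inl v) := by
    intro u w h
    by_contra hne
    exact (hd₂ (Sum.inl u) (Sum.inl w) (Or.inr (Or.inr (hall₂ u))) (Or.inr (Or.inr (hall₂ w)))
      (fun h' => hne (Sum.inl_injective h'))).1 h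
  have hy₂ : Function.Injective fun v : Fin k => Y₂ (Sum.inl v) := by
    intro u w h
    by_contra hne
    exact (hd₂ (Sum.inl u) (Sum.inl w) (Or.inr (Or.inr (hall₂ u))) (Or.inr (Or.inr (hall₂ w)))
      (fun h' => hne (Sum.inl_injective h'))).2 h
  have hnc₂ : NC G₂ (fun v : Fin k => X₂ (Sum.inl v)) (fun v : Fin k => Y₂ (Sum.inl v)) := by
    refine nc_core hncx hcan₂ (fun v => Sum.inl v) ?_ hO₂
    intro u w huw
    rcases hadj₂ u w huw with ⟨⟨s, ℓ⟩, hs, h1, h2⟩ | ⟨⟨s, ℓ⟩, hs, h1, h2⟩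
    · simp only at h1 h2
      subst h1
      exact Or.inl ⟨ℓ, hs, h2⟩
    · simp only at h1 h2
      subst h1
      exact Or.inr ⟨ℓ, hs, h2⟩
  obtain ⟨φ, hφx, hφy⟩ := hcjo (U := {u // u ∈ A})
    (fun u w => HX a b S (ev u.1) (ev w.1)) (fun u w => HY S (ev u.1) (ev w.1)) k
    (by rw [Fintype.card_coe, hA])
    (fun _ _ _ h1 h2 => Relation.TransGen.trans h1 h2) (fun u => hix _)
    (fun _ _ _ h1 h2 => Relation.TransGen.trans h1 h2) (fun u => hiy _)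
    (fun u w huw => (hzon hcan (ev u.1) (ev w.1) (fun h => huw (Subtype.ext (hev _ _ h)))
      (hAg u.1 u.2) (hAg w.1 w.2)).1)
    (by
      intro u w h
      by_cases huw : u = w
      · subst huw
        rcases h.1 with h1 | h1
        · exact hix _ h1
        · exact hix _ h1
      · exact (hzon hcan (ev u.1) (ev w.1) (fun h => huw (Subtype.ext (hev _ _ h)))
          (hAg u.1 u.2) (hAg w.1 w.2)).2 h)
    (fun v => X₂ (Sum.inl v)) (fun v => Y₂ (Sum.inl v)) hx₂ hy₂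
  obtain ⟨x, hx1, hx2, hx3, hx4⟩ := lex_ev hlex (HX a b S)
    (fun _ _ _ h1 h2 => Relation.TransGen.trans h1 h2) hix A φ _ hx₂ hφx
  obtain ⟨y, hy1, hy2, hy3, hy4⟩ := lex_ev hlex (HY S)
    (fun _ _ _ h1 h2 => Relation.TransGen.trans h1 h2) hiy A φ _ hy₂ hφy
  have hO : Pool.Agent.SGE.Ord a b S (fun v => (x v : ℝ)) (fun v => (y v : ℝ)) := by
    refine ⟨?_, ?_, ?_, ?_⟩
    · exact Nat.cast_lt.mpr (hx3 _ _ (Relation.TransGen.single (Or.inl ⟨rfl, rfl⟩)))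
    · intro v ℓ u h1 h2
      exact Nat.cast_lt.mpr (hx3 _ _ (Relation.TransGen.single (Or.inr (Or.inl ⟨ℓ, h1, h2⟩))))
    · intro v ℓ u h1 h2
      exact Nat.cast_lt.mpr (hx3 _ _ (Relation.TransGen.single (Or.inr (Or.inr ⟨ℓ, h1, h2⟩))))
    · intro v ℓ u h1 h2
      exact Nat.cast_lt.mpr (hy3 _ _ (Relation.TransGen.single ⟨ℓ, h1, h2⟩))
  have hnc₁ : NC G₁ (fun v : Fin n => x (ev v)) (fun v : Fin n => y (ev v)) :=
    nc_nat (fun u w => Nat.cast_lt.symm) (fun u w => Nat.cast_lt.symm)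
      (nc_core hncx hcan ev hadj hO)
  have hnc₂' : NC G₂ (fun i : Fin k => x (ev (φ.symm i).1))
      (fun i : Fin k => y (ev (φ.symm i).1)) := nc_nat hx4 hy4 hnc₂
  have hinjev : Function.Injective (ev : Fin n → W n) := fun u w h => hev u w h
  have hinjs : Function.Injective fun i : Fin k => (ev (φ.symm i).1 : W n) := by
    intro i j h
    exact φ.symm.injective (Subtype.ext (hev _ _ h))
  have hd1 := hexp G₁ (8 * (Fintype.card (W n) + 1)) (Fintype.card (W n))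
    (fun v : Fin n => x (ev v)) (fun v : Fin n => y (ev v)) (hx1.comp hinjev)
    (hy1.comp hinjev) (fun v => (hx2 _).le) le_rfl hnc₁
  have hd2 := hexp G₂ (8 * (Fintype.card (W n) + 1)) (Fintype.card (W n))
    (fun i : Fin k => x (ev (φ.symm i).1)) (fun i : Fin k => y (ev (φ.symm i).1))
    (hx1.comp hinjs) (hy1.comp hinjs) (fun v => (hx2 _).le) le_rfl hnc₂'
  refine ⟨Finset.univ.image (pt (8 * (Fintype.card (W n) + 1)) (fun v : Fin n => x (ev v))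
    (fun v : Fin n => y (ev v))), ?_, ⟨_, hd1, ?_⟩, ⟨_, hd2, ?_⟩⟩
  · rw [Finset.card_image_of_injective _ hd1.inj, Finset.card_univ, Fintype.card_fin]
  · intro u
    exact Finset.mem_image_of_mem _ (Finset.mem_univ u)
  · intro i
    exact Finset.mem_image.mpr ⟨(φ.symm i).1, Finset.mem_univ _, rfl⟩

end Pool.Agent.SGK.H21
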